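import Pool.Agent.Helper52.SG.Goals3
import Pool.Agent.Helper71.SG.KH

/-!
# Packet SG-BAS (project SG, MP_0a002a_al)
-/

set_option autoImplicit false

namespace Pool.Agent.Helper52.SGP.BAS

open Pool.Agent.Helper52.SG

/-- `L ⊗ ℤ[x]/(x^p - 1)` -/
def LH (p : ℕ) (L : Type) : Type := ZMod p → L

section

variable {p : ℕ} {L : Type}

instance [LieRing L] : AddCommGroup (LH p L) := inferInstanceAs (AddCommGroup (ZMod p → L))

@[simp] theorem add_ap [LieRing L] (f g : LH p L) (k : ZMod p) : (f + g) k = f k + g k := rfl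
@[simp] theorem neg_ap [LieRing L] (f : LH p L) (k : ZMod p) : (-f) k = -f k := rfl
@[simp] theorem zero_ap [LieRing L] (k : ZMod p) : (0 : LH p L) k = 0 := rfl
@[simp] theorem nsmul_ap [LieRing L] (n : ℕ) (f : LH p L) (k : ZMod p) : (n • f) k = n • f k := rfl

variable [Fact p.Prime] [LieRing L]

instance : LieRing (LH p L) where
  bracket f g := fun k => ∑ i : ZMod p, ⁅f i, g (k - i)⁆
  add_lie x y z := by
    funext k
    change ∑ i : ZMod p, ⁅x i + y i, z (k - i)⁆ =
      (∑ i : ZMod p, ⁅x i, z (k - i)⁆) + ∑ i : ZMod p, ⁅y i, z (k - i)⁆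
    rw [← Finset.sum_add_distrib]
    exact Finset.sum_congr rfl fun i _ => add_lie _ _ _
  lie_add x y z := by
    funext k
    change ∑ i : ZMod p, ⁅x i, y (k - i) + z (k - i)⁆ =
      (∑ i : ZMod p, ⁅x i, y (k - i)⁆) + ∑ i : ZMod p, ⁅x i, z (k - i)⁆
    rw [← Finset.sum_add_distrib]
    exact Finset.sum_congr rfl fun i _ => lie_add _ _ _
  lie_self x := by
    funext k
    change ∑ i : ZMod p, ⁅x i, x (k - i)⁆ = 0
    refine Finset.sum_involution (fun i _ => k - i) ?_ ?_ ?_ ?_
    · intro i _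
      rw [sub_sub_cancel, ← lie_skew, neg_add_cancel]
    · intro i _ h1 h2
      apply h1
      have h3 : k - i = i := h2
      rw [h3, lie_self]
    · intro i _
      exact Finset.mem_univ _
    · intro i _
      exact sub_sub_cancel _ _
  leibniz_lie x y z := by
    funext k
    change ∑ i : ZMod p, ⁅x i, ∑ j : ZMod p, ⁅y j, z (k - i - j)⁆⁆ =
      (∑ m : ZMod p, ⁅∑ i : ZMod p, ⁅x i, y (m - i)⁆, z (k - m)⁆) +
        ∑ j : ZMod p, ⁅y j, ∑ i : ZMod p, ⁅x i, z (k - j - i)⁆⁆
    have h1 : ∑ m : ZMod p, ⁅∑ i : ZMod p, ⁅x i, y (m - i)⁆, z (k - m)⁆ =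
        ∑ i : ZMod p, ∑ j : ZMod p, ⁅⁅x i, y j⁆, z (k - i - j)⁆ := by
      have : ∀ m : ZMod p, ⁅∑ i : ZMod p, ⁅x i, y (m - i)⁆, z (k - m)⁆ =
          ∑ i : ZMod p, ⁅⁅x i, y (m - i)⁆, z (k - m)⁆ := fun m => sum_lie _ _ _
      rw [Finset.sum_congr rfl fun m _ => this m, Finset.sum_comm]
      refine Finset.sum_congr rfl fun i _ => ?_
      rw [← Equiv.sum_comp (Equiv.addRight i)]
      refine Finset.sum_congr rfl fun j _ => ?_
      rw [Equiv.coe_addRight, add_sub_cancel_right]
      congr 2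
      ring
    have h2 : ∑ j : ZMod p, ⁅y j, ∑ i : ZMod p, ⁅x i, z (k - j - i)⁆⁆ =
        ∑ i : ZMod p, ∑ j : ZMod p, ⁅y j, ⁅x i, z (k - i - j)⁆⁆ := by
      have : ∀ j : ZMod p, ⁅y j, ∑ i : ZMod p, ⁅x i, z (k - j - i)⁆⁆ =
          ∑ i : ZMod p, ⁅y j, ⁅x i, z (k - i - j)⁆⁆ := fun j => by
        rw [lie_sum]
        refine Finset.sum_congr rfl fun i _ => ?_
        rw [sub_right_comm]
      rw [Finset.sum_congr rfl fun m _ => this m, Finset.sum_comm]
    rw [h1, h2, ← Finset.sum_add_distrib]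
    refine Finset.sum_congr rfl fun i _ => ?_
    rw [← Finset.sum_add_distrib, lie_sum]
    exact Finset.sum_congr rfl fun j _ => leibniz_lie _ _ _

theorem lie_ap (f g : LH p L) (k : ZMod p) : ⁅f, g⁆ k = ∑ i : ZMod p, ⁅f i, g (k - i)⁆ := rfl

/-- the eigenspaces -/
def Wi (ψ : L →+ L) (i : ZMod p) : AddSubgroup (LH p L) where
  carrier := {f | ∀ k, ψ (f k) = f (k - i)}
  add_mem' {f g} hf hg := fun k => by
    rw [add_ap, add_ap, map_add, hf k, hg k]
  zero_mem' := fun k => by
    rw [zero_ap, zero_ap, map_zero]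
  neg_mem' {f} hf := fun k => by
    rw [neg_ap, neg_ap, map_neg, hf k]

theorem mem_Wi {ψ : L →+ L} {i : ZMod p} {f : LH p L} :
    f ∈ Wi ψ i ↔ ∀ k, ψ (f k) = f (k - i) := Iff.rfl

theorem Wi_mul {ψ : L →+ L} (hψ : ∀ x y : L, ψ ⁅x, y⁆ = ⁅ψ x, ψ y⁆) (i j : ZMod p)
    (f : LH p L) (hf : f ∈ Wi ψ i) (g : LH p L) (hg : g ∈ Wi ψ j) : ⁅f, g⁆ ∈ Wi ψ (i + j) := by
  intro k
  rw [lie_ap, lie_ap, map_sum,
    ← Equiv.sum_comp (Equiv.subRight i) (fun a => ⁅f a, g (k - (i + j) - a)⁆)]
  refine Finset.sum_congr rfl fun a _ => ?_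
  rw [hψ, hf a, hg (k - a), Equiv.subRight_apply]
  have e : k - a - j = k - (i + j) - (a - i) := by ring
  rw [e]

theorem Wi_zero {ψ : L →+ L} (hs : ∀ x : L, ∑ j ∈ Finset.range p, ψ^[j] x = 0)
    (ht : ∀ x : L, p • x = 0 → x = 0) : Wi (p := p) ψ 0 = ⊥ := by
  rw [eq_bot_iff]
  intro f hf
  rw [AddSubgroup.mem_bot]
  funext k
  apply ht
  have h1 : ∀ j : ℕ, ψ^[j] (f k) = f k := by
    intro j
    have h2 : ψ (f k) = f k := by
      rw [hf k, sub_zero]
    exact Function.IsFixedPt.iterate (f := ψ) (x := f k) h2 j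
  rw [← hs (f k), Finset.sum_congr rfl fun j _ => h1 j, Finset.sum_const, Finset.card_range]

theorem Wi_grf {ψ : L →+ L} (hψ : ∀ x y : L, ψ ⁅x, y⁆ = ⁅ψ x, ψ y⁆)
    (hs : ∀ x : L, ∑ j ∈ Finset.range p, ψ^[j] x = 0) (ht : ∀ x : L, p • x = 0 → x = 0) :
    GrF (Wi (p := p) ψ) where
  zero := Wi_zero hs ht
  mul := Wi_mul hψ

theorem iSup_lie {N : Type} [LieRing N] {W : ZMod p → AddSubgroup N} (hW : GrF W) {a b : N}
    (ha : a ∈ ⨆ i, W i) (hb : b ∈ ⨆ i, W i) : ⁅a, b⁆ ∈ ⨆ i, W i := by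
  refine AddSubgroup.iSup_induction (C := fun a => ⁅a, b⁆ ∈ ⨆ c, W c) W ha ?_ ?_ ?_
  · intro i x hx
    refine AddSubgroup.iSup_induction (C := fun b => ⁅x, b⁆ ∈ ⨆ c, W c) W hb ?_ ?_ ?_
    · intro j y hy
      exact AddSubgroup.mem_iSup_of_mem (i + j) (hW.mul i j x hx y hy)
    · rw [lie_zero]
      exact zero_mem _
    · intro y z hy hz
      rw [lie_add]
      exact add_mem hy hz
  · rw [zero_lie]
    exact zero_mem _
  · intro y z hy hz
    rw [add_lie]
    exact add_mem hy hz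

/-- the Lie ring `⨆ W i` -/
@[reducible] def lieRingW {N : Type} [LieRing N] {W : ZMod p → AddSubgroup N} (hW : GrF W) :
    LieRing (⨆ i, W i : AddSubgroup N) where
  bracket x y := ⟨⁅(x : N), (y : N)⁆, iSup_lie hW x.2 y.2⟩
  add_lie x y z := Subtype.ext (add_lie (x : N) (y : N) (z : N))
  lie_add x y z := Subtype.ext (lie_add (x : N) (y : N) (z : N))
  lie_self x := Subtype.ext (lie_self (x : N))
  leibniz_lie x y z := Subtype.ext (leibniz_lie (x : N) (y : N) (z : N))

/-- KH without the hypothesis `⨆ W i = ⊤` -/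
theorem kh (hKH : S_KH) {N : Type} [LieRing N] {W : ZMod p → AddSubgroup N} (hW : GrF W) :
    ∃ n : ℕ, LI (⨆ i, W i) n = ⊥ := by
  letI := lieRingW hW
  let ι : (⨆ i, W i : AddSubgroup N) →+ N := (⨆ i, W i : AddSubgroup N).subtype
  have hι : ∀ x y, ι ⁅x, y⁆ = ⁅ι x, ι y⁆ := fun x y => rfl
  have hinj : Function.Injective ι := Subtype.val_injective
  have hr : ι.range = ⨆ i, W i := AddSubgroup.range_subtype _
  let W' : ZMod p → AddSubgroup (⨆ i, W i : AddSubgroup N) := fun c => (W c).comap ι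
  have hW' : ∀ c, (W' c).map ι = W c := by
    intro c
    apply AddSubgroup.map_comap_eq_self
    rw [hr]
    exact le_iSup W c
  have hG' : GrF W' := by
    constructor
    · rw [eq_bot_iff]
      intro x hx
      have h1 : ι x ∈ W 0 := hx
      rw [hW.zero, AddSubgroup.mem_bot] at h1
      rw [AddSubgroup.mem_bot]
      exact hinj (h1.trans (map_zero ι).symm)
    · intro i j x hx y hy
      show ι ⁅x, y⁆ ∈ W (i + j)
      rw [hι]
      exact hW.mul i j _ hx _ hy
  have hS : (⨆ i, W' i) = ⊤ := by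
    apply AddSubgroup.map_injective hinj
    rw [AddSubgroup.map_iSup, iSup_congr hW', ← AddMonoidHom.range_eq_map, hr]
  obtain ⟨n, hn⟩ := hKH p _ W' hG' hS
  refine ⟨n, ?_⟩
  have h3 := Pool.Agent.Helper71.SG.KH.map_LI ι hι ⊤ n
  rw [hn, AddSubgroup.map_bot, ← AddMonoidHom.range_eq_map, hr] at h3
  exact h3.symm

/-- the element `l ⊗ (p - Φ)` -/
def el (l : L) : LH p L := fun k => (if k = 0 then p • l else 0) - l

theorem el_ap (l : L) (k : ZMod p) : el (p := p) l k = (if k = 0 then p • l else 0) - l := rfl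

theorem el_add (l l' : L) : el (p := p) (l + l') = el (p := p) l + el (p := p) l' := by
  funext k
  rw [add_ap, el_ap, el_ap, el_ap]
  split_ifs
  · rw [smul_add]
    abel
  · abel

theorem el_zero : el (p := p) (0 : L) = 0 := by
  funext k
  rw [el_ap, zero_ap]
  simp

theorem el_neg (l : L) : el (p := p) (-l) = -el (p := p) l := by
  rw [eq_neg_iff_add_eq_zero, ← el_add, neg_add_cancel, el_zero]

theorem el_lie (l l' : L) : ⁅el (p := p) l, el (p := p) l'⁆ = p • el (p := p) ⁅l, l'⁆ := by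
  funext k
  rw [lie_ap, nsmul_ap, el_ap]
  have h1 : ∀ i : ZMod p, ⁅el (p := p) l i, el (p := p) l' (k - i)⁆ =
      (if i = 0 then (if k = 0 then p • p • ⁅l, l'⁆ else 0) - p • ⁅l, l'⁆ else 0) -
        (if i = k then p • ⁅l, l'⁆ else 0) + ⁅l, l'⁆ := by
    intro i
    rw [el_ap, el_ap]
    by_cases hi : i = 0
    · subst hi
      by_cases hk : k = 0
      · subst hk
        simp [smul_sub, sub_lie, lie_sub]
        abel
      · have hk' : ¬ (0 : ZMod p) = k := fun h => hk h.symm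
        simp [hk, hk', sub_lie, lie_sub]
        abel
    · by_cases hk : i = k
      · subst hk
        simp [hi, sub_lie, lie_sub]
        rw [← lie_skew l' l, smul_neg]
        abel
      · have hk' : ¬ (k - i = 0) := fun h => hk (sub_eq_zero.1 h).symm
        simp [hi, hk, hk', sub_lie, lie_sub]
  rw [Finset.sum_congr rfl fun i _ => h1 i, Finset.sum_add_distrib, Finset.sum_sub_distrib,
    Finset.sum_ite_eq' Finset.univ (0 : ZMod p), Finset.sum_ite_eq' Finset.univ k, Finset.sum_const,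
    Finset.card_univ, ZMod.card]
  simp only [Finset.mem_univ, if_true]
  split_ifs
  · rw [smul_sub]
    abel
  · rw [smul_sub, smul_zero]
    abel

theorem el_mem {ψ : L →+ L} (hp : ∀ x : L, ψ^[p] x = x)
    (hs : ∀ x : L, ∑ j ∈ Finset.range p, ψ^[j] x = 0) (l : L) :
    el (p := p) l ∈ ⨆ i : ZMod p, Wi (p := p) ψ i := by
  classical
  have hpp : p.Prime := Fact.out
  let Ψ : ZMod p → L := fun t => ψ^[t.val] l
  have hΨ : ∀ t, ψ (Ψ t) = Ψ (t + 1) := by
    intro t
    change ψ (ψ^[t.val] l) = ψ^[(t + 1).val] l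
    rw [ZMod.val_add, ZMod.val_one'' hpp.ne_one, ← Function.iterate_succ_apply' (f := ψ)]
    exact ((show Function.IsPeriodicPt ψ p l from hp l).iterate_mod_apply (t.val + 1)).symm
  have hsum : ∑ t : ZMod p, Ψ t = 0 := by
    rw [← hs l]
    refine Finset.sum_nbij' (fun t => t.val) (fun j => (j : ZMod p)) ?_ ?_ ?_ ?_ ?_
    · intro t _
      exact Finset.mem_range.2 (ZMod.val_lt t)
    · intro j _
      exact Finset.mem_univ _
    · intro t _
      exact ZMod.natCast_zmod_val t
    · intro j hj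
      exact ZMod.val_cast_of_lt (Finset.mem_range.1 hj)
    · intro t _
      rfl
  let v : ZMod p → LH p L := fun i k => ∑ t : ZMod p, if k = -(i * t) then Ψ t else 0
  have hv : ∀ i, v i ∈ Wi (p := p) ψ i := by
    intro i k
    change ψ (∑ t : ZMod p, if k = -(i * t) then Ψ t else 0) =
      ∑ t : ZMod p, if k - i = -(i * t) then Ψ t else 0
    rw [map_sum, ← Equiv.sum_comp (Equiv.addRight (1 : ZMod p))
      (fun t => if k - i = -(i * t) then Ψ t else 0)]
    refine Finset.sum_congr rfl fun t _ => ?_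
    rw [Equiv.coe_addRight]
    have h1 : (k - i = -(i * (t + 1))) ↔ (k = -(i * t)) := by
      constructor
      · intro h
        have h2 : k = -(i * (t + 1)) + i := by rw [← h, sub_add_cancel]
        rw [h2]
        ring
      · intro h
        rw [h]
        ring
    by_cases h : k = -(i * t)
    · rw [if_pos h, if_pos (h1.2 h), hΨ]
    · rw [if_neg h, if_neg (fun h2 => h (h1.1 h2)), map_zero]
  have hev : el (p := p) l = ∑ i : ZMod p, v i := by
    funext k
    have h0 : (∑ i : ZMod p, v i) k = ∑ i : ZMod p, v i k := Finset.sum_apply k _ _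
    rw [h0, el_ap]
    change (if k = 0 then p • l else 0) - l =
      ∑ i : ZMod p, ∑ t : ZMod p, if k = -(i * t) then Ψ t else 0
    rw [Finset.sum_comm]
    have h1 : ∀ t : ZMod p, (∑ i : ZMod p, if k = -(i * t) then Ψ t else 0) =
        (if t = 0 then (if k = 0 then p • l else 0) - l else 0) + Ψ t := by
      intro t
      by_cases ht : t = 0
      · subst ht
        have h2 : Ψ 0 = l := by
          change ψ^[(0 : ZMod p).val] l = l
          rw [ZMod.val_zero]
          rfl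
        rw [if_pos rfl, h2, sub_add_cancel]
        simp only [mul_zero, neg_zero]
        rw [Finset.sum_const, Finset.card_univ, ZMod.card]
        split_ifs
        · rfl
        · rw [smul_zero]
      · rw [if_neg ht, zero_add]
        have h2 : ∀ i : ZMod p, (k = -(i * t)) ↔ (i = -k / t) := by
          intro i
          rw [eq_div_iff ht, eq_comm, neg_eq_iff_eq_neg]
        rw [Finset.sum_congr rfl fun i _ => if_congr (h2 i) rfl rfl, Finset.sum_ite_eq']
        simp
    rw [Finset.sum_congr rfl fun t _ => h1 t, Finset.sum_add_distrib, hsum, add_zero,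
      Finset.sum_ite_eq']
    simp
  rw [hev]
  exact sum_mem fun i _ => AddSubgroup.mem_iSup_of_mem i (hv i)

end

theorem t (hKH : S_KH) : S_BAS := by
  intro p hpf L _ ψ hψ hp hs ht
  have hpp : p.Prime := Fact.out
  have hW := Wi_grf (p := p) hψ hs ht
  obtain ⟨n, hn⟩ := kh hKH hW
  refine ⟨n, ?_⟩
  have key : ∀ m : ℕ, ∀ x ∈ LI (⊤ : AddSubgroup L) m,
      p ^ m • el (p := p) x ∈ LI (⨆ i : ZMod p, Wi (p := p) ψ i) m := by
    intro m
    induction m with
    | zero =>
      intro x _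
      rw [pow_zero, one_smul]
      exact el_mem hp hs x
    | succ m ih =>
      intro x hx
      change x ∈ AddSubgroup.closure _ at hx
      refine AddSubgroup.closure_induction ?_ ?_ ?_ ?_ hx
      · rintro _ ⟨a, ha, b, _, rfl⟩
        have h1 : p ^ (m + 1) • el (p := p) ⁅a, b⁆ = ⁅p ^ m • el (p := p) a, el (p := p) b⁆ := by
          rw [nsmul_lie, el_lie, smul_smul, pow_succ]
        rw [h1]
        exact mem_br (ih a ha) (el_mem hp hs b)
      · rw [el_zero, smul_zero]
        exact zero_mem _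
      · intro y z _ _ hy hz
        rw [el_add, smul_add]
        exact add_mem hy hz
      · intro y _ hy
        rw [el_neg, smul_neg]
        exact neg_mem hy
  rw [eq_bot_iff]
  intro x hx
  have h1 := key n x hx
  rw [hn, AddSubgroup.mem_bot] at h1
  have h2 : (p ^ n • el (p := p) x) 1 = 0 := by
    rw [h1]
    rfl
  have h3 : (1 : ZMod p) ≠ 0 := one_ne_zero
  rw [nsmul_ap, el_ap, if_neg h3, zero_sub, smul_neg, neg_eq_zero] at h2
  rw [AddSubgroup.mem_bot]
  have h4 : ∀ m : ℕ, p ^ m • x = 0 → x = 0 := by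
    intro m
    induction m with
    | zero =>
      intro h
      rwa [pow_zero, one_smul] at h
    | succ m ih =>
      intro h
      apply ih
      apply ht
      rwa [smul_smul, ← pow_succ']
  exact h4 n h2

end Pool.Agent.Helper52.SGP.BAS
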