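import Pool.Agent.Helper52.SG.Goals3

/-!
# Project SG: FGT, NPN, AXB
-/

set_option autoImplicit false

namespace Pool.Agent.Helper52.SGP.FGT

open Subgroup Pool.H83Shunkov Pool.Agent.Helper52.SG

theorem locFin_comm {B : Type} [Group B] (Z : Subgroup B) (hZ : ∀ x ∈ Z, ∀ y ∈ Z, x * y = y * x)
    (ht : ∀ x : B, IsOfFinOrder x) : IsLocFin Z := by
  intro S hS
  have hle : closure (S : Set B) ≤ Z := (closure_le Z).2 hS
  have hfg : Group.FG (closure (S : Set B)) := (Group.fg_iff_subgroup_fg _).2 ⟨S, rfl⟩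
  let hc : CommGroup (closure (S : Set B)) :=
    { (inferInstance : Group (closure (S : Set B))) with
      mul_comm := fun x y => Subtype.ext (hZ _ (hle x.2) _ (hle y.2)) }
  have hfin : Finite (closure (S : Set B)) := by
    apply CommGroup.finite_of_fg_isMulTorsion
    intro x
    obtain ⟨n, hn, h⟩ := isOfFinOrder_iff_pow_eq_one.1 (ht (x : B))
    exact isOfFinOrder_iff_pow_eq_one.2 ⟨n, hn, Subtype.ext (by simpa using h)⟩
  exact Set.toFinite _

theorem aux (B : Type) [Group B] [Group.IsNilpotent B] :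
    (∀ x : B, IsOfFinOrder x) → IsLocFin (⊤ : Subgroup B) := by
  refine Group.nilpotent_center_quotient_ind
    (P := fun G _ _ => (∀ x : G, IsOfFinOrder x) → IsLocFin (⊤ : Subgroup G)) B ?_ ?_
  · intro G _ _ _
    exact isLocFin_of_finite (Set.toFinite _)
  · intro G _ _ ih ht
    have h1 : ∀ x : G ⧸ center G, IsOfFinOrder x := by
      intro x
      obtain ⟨g, rfl⟩ := QuotientGroup.mk_surjective x
      exact MonoidHom.isOfFinOrder (QuotientGroup.mk' (center G)) (ht g)
    have h2 := ih h1
    refine IsLocFin.of_map_quotient (center G) ?_ ?_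
    · intro S hS
      have hle : closure (S : Set G) ≤ center G := (closure_le _).2 hS
      have hfg : Group.FG (closure (S : Set G)) := (Group.fg_iff_subgroup_fg _).2 ⟨S, rfl⟩
      let hc : CommGroup (closure (S : Set G)) :=
        { (inferInstance : Group (closure (S : Set G))) with
          mul_comm := fun x y => Subtype.ext ((mem_center_iff.1 (hle y.2) x)) }
      have hfin : Finite (closure (S : Set G)) := by
        apply CommGroup.finite_of_fg_isMulTorsion
        intro x
        obtain ⟨n, hn, h⟩ := isOfFinOrder_iff_pow_eq_one.1 (ht (x : G))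
        exact isOfFinOrder_iff_pow_eq_one.2 ⟨n, hn, Subtype.ext (by simpa using h)⟩
      exact Set.toFinite _
    · exact h2.mono le_top

theorem t : S_FGT := by
  intro B _ hB ht
  exact aux B ht

end Pool.Agent.Helper52.SGP.FGT

namespace Pool.Agent.Helper52.SGP.NPN

open Subgroup Pool.Agent.Helper52.SG

theorem t : S_NPN := by
  classical
  intro G _ _ r hr hG
  have : Fact r.Prime := ⟨hr⟩
  obtain ⟨e⟩ := ((Group.isNilpotent_of_finite_tfae (G := G)).out 0 4 rfl rfl).1 hG
  by_cases hrc : r ∣ Nat.card G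
  swap
  · intro x _ y _ _ _ h
    exact hrc (h.trans (orderOf_dvd_natCard _))
  have hr' : r ∈ (Nat.card G).primeFactors :=
    Nat.mem_primeFactors.2 ⟨hr, hrc, Nat.card_pos.ne'⟩
  have key : ∀ g : G, ¬ r ∣ orderOf g ↔
      ∀ P : Sylow r G, (e.symm g) ⟨r, hr'⟩ P = 1 := by
    intro g
    constructor
    · intro h P
      have h1 : orderOf ((e.symm g) ⟨r, hr'⟩ P) ∣ orderOf g := by
        rw [← MulEquiv.orderOf_eq e.symm g]
        refine orderOf_dvd_of_pow_eq_one ?_
        have h2 := pow_orderOf_eq_one (e.symm g)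
        have h3 := congrFun (congrFun h2 ⟨r, hr'⟩) P
        exact h3
      obtain ⟨k, hk⟩ := (IsPGroup.iff_orderOf.1 P.2) ((e.symm g) ⟨r, hr'⟩ P)
      rw [← orderOf_eq_one_iff, hk]
      rcases Nat.eq_zero_or_pos k with h0 | h0
      · rw [h0, pow_zero]
      · exfalso
        apply h
        rw [hk] at h1
        exact (dvd_pow_self r h0.ne').trans h1
    · intro h hd
      have h0 : 0 < orderOf g := orderOf_pos g
      obtain ⟨d, hd'⟩ := hd
      have hdpos : 0 < d := by
        rcases Nat.eq_zero_or_pos d with h5 | h5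
        · rw [h5, mul_zero] at hd'
          omega
        · exact h5
      have hgd : orderOf (g ^ d) = r := by
        rw [orderOf_pow_of_dvd hdpos.ne' (Dvd.intro_left r hd'.symm), hd',
          Nat.mul_div_cancel _ hdpos]
      have h1 : e.symm (g ^ d) = 1 := by
        funext q P
        show (e.symm (g ^ d)) q P = 1
        by_cases hq : (q : ℕ) = r
        · obtain ⟨q, hq2⟩ := q
          have hq' : q = r := hq
          subst hq'
          have h6 : (e.symm (g ^ d)) ⟨q, hq2⟩ P = ((e.symm g) ⟨q, hq2⟩ P) ^ d := by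
            rw [map_pow]
            rfl
          rw [h6]
          have h7 := h P
          rw [show (e.symm g) ⟨q, hq2⟩ P = 1 from h7, one_pow]
        · have hqp : (q : ℕ).Prime := (Nat.mem_primeFactors.1 q.2).1
          have : Fact (q : ℕ).Prime := ⟨hqp⟩
          have h6 : ((e.symm (g ^ d)) q P) ^ r = 1 := by
            have h8 : (e.symm (g ^ d)) ^ r = 1 := by
              rw [← map_pow, ← hgd, pow_orderOf_eq_one, map_one]
            exact congrFun (congrFun h8 q) P
          obtain ⟨k, hk⟩ := (IsPGroup.iff_orderOf.1 P.2) ((e.symm (g ^ d)) q P)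
          have h9 := orderOf_dvd_of_pow_eq_one h6
          rw [hk] at h9
          have h10 : k = 0 := by
            by_contra hk0
            have h11 : (q : ℕ) ∣ r := (dvd_pow_self _ hk0).trans h9
            exact hq ((Nat.prime_dvd_prime_iff_eq hqp hr).1 h11)
          rw [h10, pow_zero, orderOf_eq_one_iff] at hk
          exact hk
      have h2 : g ^ d = 1 := by
        apply e.symm.injective
        rw [h1, map_one]
      rw [h2, orderOf_one] at hgd
      exact hr.one_lt.ne hgd
  intro x _ y _ hx hy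
  rw [key] at hx hy ⊢
  intro P
  rw [map_mul]
  show (e.symm x) ⟨r, hr'⟩ P * (e.symm y) ⟨r, hr'⟩ P = 1
  rw [hx P, hy P, one_mul]

end Pool.Agent.Helper52.SGP.NPN

namespace Pool.Agent.Helper52.SGP.AXB

open Subgroup Pool.Agent.Helper52.SG

theorem t (hCD : S_CD) : S_AXB := by
  intro V _ _ r hr hV A Q hA hQ hcomm hfix
  have hrf : Fact r.Prime := ⟨hr⟩
  set Y : Subgroup V := closure {x : V | ∃ w : V, ∃ q ∈ Q, x = w⁻¹ * q w} with hY
  have hinv : ∀ a ∈ A, ∀ y ∈ Y, a y ∈ Y := by
    intro a ha y hy
    have h1 : Y ≤ Y.comap (MulEquiv.toMonoidHom a) := by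
      rw [hY, closure_le]
      rintro x ⟨w, q, hq, rfl⟩
      show a (w⁻¹ * q w) ∈ Subgroup.closure {x : V | ∃ w : V, ∃ q ∈ Q, x = w⁻¹ * q w}
      have h2 : a (w⁻¹ * q w) = (a w)⁻¹ * q (a w) := by
        rw [map_mul, map_inv]
        congr 1
        show (a * q) w = (q * a) w
        rw [hcomm a ha q hq]
      rw [h2]
      exact subset_closure ⟨a w, q, hq, rfl⟩
    exact h1 hy
  have hYbot : Y = ⊥ := by
    by_contra hne
    let act : MulAction A Y :=
      { smul := fun a y => ⟨(a : MulAut V) y, hinv a a.2 y y.2⟩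
        one_smul := fun y => rfl
        mul_smul := fun a b y => rfl }
    have hYp : IsPGroup r Y := hV.to_subgroup Y
    have hnt : Nontrivial Y := (Subgroup.nontrivial_iff_ne_bot Y).2 hne
    have hdvd : r ∣ Nat.card Y := by
      obtain ⟨n, hn0, hn⟩ := hYp.nontrivial_iff_card.mp hnt
      exact hn.symm ▸ dvd_pow_self _ (ne_of_gt hn0)
    obtain ⟨b, hb, hb1⟩ := hA.exists_fixed_point_of_prime_dvd_card_of_fixed_point (α := Y) hdvd
      (a := 1) (fun a => Subtype.ext (map_one (a : MulAut V)))
    apply hb1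
    have h1 : ∀ a ∈ A, a (b : V) = b := fun a ha => congrArg Subtype.val (hb ⟨a, ha⟩)
    have h2 := hfix b h1
    have hcop : (Nat.card V).Coprime (Nat.card Q) := by
      obtain ⟨n, hn⟩ := IsPGroup.iff_card.1 hV
      rw [hn]
      exact Nat.Coprime.pow_left n ((Nat.Prime.coprime_iff_not_dvd hr).2 hQ)
    have h3 := hCD V Q hcop b b.2 h2
    exact Subtype.ext h3.symm
  intro q hq
  ext1 w
  have h1 : w⁻¹ * q w ∈ Y := subset_closure ⟨w, q, hq, rfl⟩
  rw [hYbot, mem_bot, inv_mul_eq_one] at h1
  exact h1.symm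

end Pool.Agent.Helper52.SGP.AXB
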