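import Pool.Agent.Helper52.SG.Goals3

/-!
# Project SG: HALL
-/

set_option autoImplicit false

namespace Pool.Agent.Helper52.SGP.HALL

open Pool.Agent.Helper52.SG

section

variable {N : Type} [LieRing N]

/-- ideals -/
def Id (J : AddSubgroup N) : Prop := ∀ x ∈ J, ∀ y : N, ⁅x, y⁆ ∈ J

theorem jac (a b y : N) : ⁅⁅a, b⁆, y⁆ = ⁅⁅a, y⁆, b⁆ + ⁅a, ⁅b, y⁆⁆ := by
  rw [lie_lie, ← lie_skew b ⁅a, y⁆]
  abel

theorem jac2 (a x y : N) : ⁅a, ⁅x, y⁆⁆ = ⁅⁅a, x⁆, y⁆ - ⁅⁅a, y⁆, x⁆ := by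
  rw [jac a x y]
  abel

theorem br_ind {A B C : AddSubgroup N} (f : N →+ N) (h : ∀ a ∈ A, ∀ b ∈ B, f ⁅a, b⁆ ∈ C) :
    ∀ x ∈ br A B, f x ∈ C := by
  intro x hx
  have h1 : br A B ≤ C.comap f := br_le fun a ha b hb => h a ha b hb
  exact h1 hx

/-- right bracket as an additive map -/
def adr (y : N) : N →+ N where
  toFun x := ⁅x, y⁆
  map_zero' := zero_lie y
  map_add' a b := add_lie a b y

def adl (y : N) : N →+ N where
  toFun x := ⁅y, x⁆
  map_zero' := lie_zero y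
  map_add' a b := lie_add y a b

theorem Id.br {A B : AddSubgroup N} (hA : Id A) (hB : Id B) : Id (br A B) := by
  intro x hx y
  refine br_ind (C := SG.br A B) (adr y) (fun a ha b hb => ?_) x hx
  show ⁅⁅a, b⁆, y⁆ ∈ SG.br A B
  rw [jac]
  exact add_mem (mem_br (hA a ha y) hb) (mem_br ha (hB b hb y))

theorem id_top : Id (⊤ : AddSubgroup N) := fun _ _ _ => AddSubgroup.mem_top _

theorem br_top_le {J : AddSubgroup N} (h : Id J) : br J ⊤ ≤ J := br_le fun a ha b _ => h a ha b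

theorem Id.LI {I : AddSubgroup N} (h : Id I) : ∀ k, Id (LI I k)
  | 0 => h
  | k + 1 => (Id.LI h k).br h

theorem Id.AI {J : AddSubgroup N} (h : Id J) : ∀ n, Id (AI J n)
  | 0 => h
  | n + 1 => (Id.AI h n).br id_top

theorem AI_mono {J J' : AddSubgroup N} (h : J ≤ J') : ∀ n, AI J n ≤ AI J' n
  | 0 => h
  | n + 1 => br_mono (AI_mono h n) le_rfl

theorem AI_add (J : AddSubgroup N) (a : ℕ) : ∀ b, AI J (a + b) = AI (AI J a) b
  | 0 => rfl
  | b + 1 => by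
    show br (AI J (a + b)) ⊤ = br (AI (AI J a) b) ⊤
    rw [AI_add J a b]

theorem AI_succ' (J : AddSubgroup N) (n : ℕ) : AI J (n + 1) = AI (br J ⊤) n := by
  rw [add_comm, AI_add]
  rfl

theorem AI_le {J : AddSubgroup N} (h : Id J) : ∀ n, AI J n ≤ J
  | 0 => le_rfl
  | n + 1 => (br_top_le (h.AI n)).trans (AI_le h n)

theorem AI_anti {J : AddSubgroup N} (h : Id J) {p i : ℕ} (hpi : p ≤ i) : AI J i ≤ AI J p := by
  obtain ⟨d, rfl⟩ := Nat.exists_eq_add_of_le hpi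
  rw [AI_add]
  exact AI_le (h.AI p) d

theorem br_sup (A B C : AddSubgroup N) : br (A ⊔ B) C ≤ br A C ⊔ br B C := by
  refine br_le fun x hx c hc => ?_
  obtain ⟨a, ha, b, hb, rfl⟩ := AddSubgroup.mem_sup.1 hx
  rw [add_lie]
  exact add_mem (AddSubgroup.mem_sup_left (mem_br ha hc)) (AddSubgroup.mem_sup_right (mem_br hb hc))

theorem AI_sup (J J' : AddSubgroup N) : ∀ n, AI (J ⊔ J') n ≤ AI J n ⊔ AI J' n
  | 0 => le_rfl
  | n + 1 => (br_mono (AI_sup J J' n) le_rfl).trans (br_sup _ _ _)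

theorem br_br_top (X Y : AddSubgroup N) : br (br X Y) ⊤ ≤ br (br X ⊤) Y ⊔ br X (br Y ⊤) := by
  refine br_le fun x hx y _ => ?_
  refine br_ind (C := br (br X ⊤) Y ⊔ br X (br Y ⊤)) (adr y) (fun a ha b hb => ?_) x hx
  show ⁅⁅a, b⁆, y⁆ ∈ _
  rw [jac]
  exact add_mem (AddSubgroup.mem_sup_left (mem_br (mem_br ha (AddSubgroup.mem_top _)) hb))
    (AddSubgroup.mem_sup_right (mem_br ha (mem_br hb (AddSubgroup.mem_top _))))

theorem AI_br {A B C : AddSubgroup N} (p q : ℕ)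
    (h1 : ∀ i j, p ≤ i → br (AI A i) (AI B j) ≤ C)
    (h2 : ∀ i j, q ≤ j → br (AI A i) (AI B j) ≤ C) :
    ∀ n i j, p + q ≤ i + j + n → AI (br (AI A i) (AI B j)) n ≤ C := by
  intro n
  induction n with
  | zero =>
    intro i j h
    show br (AI A i) (AI B j) ≤ C
    rcases le_or_gt p i with hp | hp
    · exact h1 i j hp
    · exact h2 i j (by omega)
  | succ n ih =>
    intro i j h
    rw [AI_succ']
    refine (AI_mono (br_br_top _ _) n).trans ((AI_sup _ _ n).trans (sup_le ?_ ?_))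
    · exact ih (i + 1) j (by omega)
    · exact ih i (j + 1) (by omega)

theorem key {I : AddSubgroup N} (hI : Id I) {m : ℕ} (hm : AI I m ≤ br I I) :
    ∀ k, ∃ mk, AI (LI I k) mk ≤ LI I (k + 1)
  | 0 => ⟨m, hm⟩
  | k + 1 => by
    obtain ⟨mk, hk⟩ := key hI hm k
    refine ⟨mk + m, ?_⟩

    have h1 : ∀ i j, mk ≤ i → br (AI (LI I k) i) (AI I j) ≤ LI I (k + 1 + 1) := fun i j hi =>
      br_mono ((AI_anti (hI.LI k) hi).trans hk) (AI_le hI j)
    have h2 : ∀ i j, m ≤ j → br (AI (LI I k) i) (AI I j) ≤ LI I (k + 1 + 1) := by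
      intro i j hj
      refine (br_mono (AI_le (hI.LI k) i) ((AI_anti hI hj).trans hm)).trans ?_
      refine br_le fun a ha b hb => ?_
      refine br_ind (C := LI I (k + 1 + 1)) (adl a) (fun x hx y hy => ?_) b hb
      show ⁅a, ⁅x, y⁆⁆ ∈ LI I (k + 1 + 1)
      rw [jac2]
      exact sub_mem (mem_br (mem_br ha hx) hy) (mem_br (mem_br ha hy) hx)
    exact AI_br mk m h1 h2 (mk + m) 0 0 (by omega)

theorem all {I : AddSubgroup N} (hI : Id I) {m : ℕ} (hm : AI I m ≤ br I I) :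
    ∀ k, ∃ M, AI I M ≤ LI I k
  | 0 => ⟨0, le_rfl⟩
  | k + 1 => by
    obtain ⟨M, hM⟩ := all hI hm k
    obtain ⟨mk, hk⟩ := key hI hm k
    refine ⟨M + mk, ?_⟩
    rw [AI_add]
    exact (AI_mono hM mk).trans hk

theorem LI_top_succ (n : ℕ) : LI (⊤ : AddSubgroup N) (n + 1) = AI (br ⊤ ⊤) n := by
  induction n with
  | zero => rfl
  | succ n ih =>
    show br (LI (⊤ : AddSubgroup N) (n + 1)) ⊤ = br (AI (br ⊤ ⊤) n) ⊤
    rw [ih]

end

theorem t : S_HALL := by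
  intro N _ m d hm hd
  obtain ⟨M, hM⟩ := all (id_top.br id_top) hm d
  refine ⟨M + 1, ?_⟩
  rw [LI_top_succ, eq_bot_iff, ← hd]
  exact hM

end Pool.Agent.Helper52.SGP.HALL
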