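import Pool.Agent.Helper52.SG.Goals2

/-!
# Project SG: PNO, PNQ, CD
-/

set_option autoImplicit false

namespace Pool.Agent.Helper52.SGP.PNO

open Subgroup Pool.Agent.Helper52.SG

theorem t : S_PNO := by
  intro G _ _ r hr K hK
  let O : Subgroup G :=
    { carrier := {x | x ∈ K ∧ ¬ r ∣ orderOf x}
      mul_mem' := fun {a b} ha hb => ⟨K.mul_mem ha.1 hb.1, hK a ha.1 b hb.1 ha.2 hb.2⟩
      one_mem' := ⟨K.one_mem, by
        rw [orderOf_one]
        exact fun h => hr.one_lt.ne' (Nat.dvd_one.1 h)⟩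
      inv_mem' := fun {a} ha => ⟨K.inv_mem ha.1, by
        rw [orderOf_inv]
        exact ha.2⟩ }
  refine ⟨O, fun x => Iff.rfl, ?_, ?_⟩
  · intro h
    have : Fact r.Prime := ⟨hr⟩
    obtain ⟨x, hx⟩ := exists_prime_orderOf_dvd_card' r h
    have h1 : ¬ r ∣ orderOf (x : G) := x.2.2
    rw [Subgroup.orderOf_coe, hx] at h1
    exact h1 dvd_rfl
  · intro k hk
    obtain ⟨n, m, hm, hnm⟩ := Nat.exists_eq_pow_mul_and_not_dvd (orderOf_pos k).ne' r hr.one_lt.ne'
    refine ⟨n, K.pow_mem hk _, ?_⟩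
    have h1 : (k ^ r ^ n) ^ m = 1 := by
      rw [← pow_mul, ← hnm, pow_orderOf_eq_one]
    exact fun h => hm (h.trans (orderOf_dvd_of_pow_eq_one h1))

end Pool.Agent.Helper52.SGP.PNO

namespace Pool.Agent.Helper52.SGP.PNQ

open Subgroup Pool.Agent.Helper52.SG

theorem lift {G G' : Type} [Group G] [Finite G] [Group G'] {r : ℕ} (f : G →* G') (hr : r.Prime)
    {K : Subgroup G} {y : G'} (hy : y ∈ K.map f) (h : ¬ r ∣ orderOf y) :
    ∃ x ∈ K, f x = y ∧ ¬ r ∣ orderOf x := by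
  obtain ⟨x, hx, rfl⟩ := hy
  obtain ⟨n, m, hm, hnm⟩ := Nat.exists_eq_pow_mul_and_not_dvd (orderOf_pos x).ne' r hr.one_lt.ne'
  have hcop : (r ^ n).Coprime m := Nat.Coprime.pow_left n ((Nat.Prime.coprime_iff_not_dvd hr).2 hm)
  obtain ⟨j, hj1, hj2⟩ := Nat.chineseRemainder hcop 0 1
  have hd : orderOf (f x) ∣ m := by
    have h1 : orderOf (f x) ∣ r ^ n * m := hnm ▸ orderOf_map_dvd f x
    exact Nat.Coprime.dvd_of_dvd_mul_left
      (Nat.Coprime.pow_right n (((Nat.Prime.coprime_iff_not_dvd hr).2 h).symm)) h1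
  refine ⟨x ^ j, K.pow_mem hx _, ?_, ?_⟩
  · rw [map_pow]
    have h2 : j ≡ 1 [MOD orderOf (f x)] := hj2.of_dvd hd
    calc f x ^ j = f x ^ 1 := pow_eq_pow_iff_modEq.2 h2
      _ = f x := pow_one _
  · have h3 : r ^ n ∣ j := (Nat.modEq_zero_iff_dvd).1 hj1
    have h4 : (x ^ j) ^ m = 1 := by
      obtain ⟨c, hc⟩ := h3
      rw [← pow_mul, hc, show r ^ n * c * m = r ^ n * m * c by ring, ← hnm, pow_mul,
        pow_orderOf_eq_one, one_pow]
    exact fun h5 => hm (h5.trans (orderOf_dvd_of_pow_eq_one h4))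

theorem t : S_PNQ := by
  intro G G' _ _ _ r f hr K hK x hx y hy h1 h2
  obtain ⟨x', hx', rfl, h3⟩ := lift f hr hx h1
  obtain ⟨y', hy', rfl, h4⟩ := lift f hr hy h2
  rw [← map_mul]
  exact fun h => hK x' hx' y' hy' h3 h4 (h.trans (orderOf_map_dvd f _))

end Pool.Agent.Helper52.SGP.PNQ

namespace Pool.Agent.Helper52.SGP.CD

open Subgroup Pool.Agent.Helper52.SG

theorem t : S_CD := by
  classical
  intro V _ _ Q hc v hv hf
  have : Fintype Q := Fintype.ofFinite _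
  let Nm : V →* V :=
    { toFun := fun w => ∏ q : Q, (q : MulAut V) w
      map_one' := by simp
      map_mul' := fun a b => by simp [Finset.prod_mul_distrib] }
  have h1 : ∀ (q : Q) (w : V), Nm ((q : MulAut V) w) = Nm w := by
    intro q w
    show ∏ q' : Q, (q' : MulAut V) ((q : MulAut V) w) = ∏ q' : Q, (q' : MulAut V) w
    rw [← Equiv.prod_comp (Equiv.mulRight q) (fun q' : Q => (q' : MulAut V) w)]
    rfl
  have h2 : closure {x : V | ∃ w : V, ∃ q ∈ Q, x = w⁻¹ * q w} ≤ Nm.ker := by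
    rw [closure_le]
    rintro x ⟨w, q, hq, rfl⟩
    show Nm (w⁻¹ * q w) = 1
    rw [map_mul, map_inv, h1 ⟨q, hq⟩ w, inv_mul_cancel]
  have h3 : Nm v = 1 := h2 hv
  have h4 : Nm v = v ^ Nat.card Q := by
    show ∏ q : Q, (q : MulAut V) v = _
    have h0 : ∀ q ∈ (Finset.univ : Finset Q), (q : MulAut V) v = v := fun q _ => hf q.1 q.2
    rw [Finset.prod_congr rfl h0, Finset.prod_const, Finset.card_univ, Nat.card_eq_fintype_card]
  rw [h4] at h3
  have h5 : v ^ Nat.card V = 1 := pow_card_eq_one'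
  have h6 : orderOf v ∣ 1 := by
    rw [← Nat.Coprime.gcd_eq_one hc]
    exact Nat.dvd_gcd (orderOf_dvd_of_pow_eq_one h5) (orderOf_dvd_of_pow_eq_one h3)
  exact orderOf_eq_one_iff.1 (Nat.dvd_one.1 h6)

end Pool.Agent.Helper52.SGP.CD
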