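import Pool.Agent.Helper52.SG.Goals2

/-!
# Project SG: THO
-/

set_option autoImplicit false

namespace Pool.Agent.Helper52.SGP.THO

open Subgroup Pool.Agent.Helper52.SG

theorem t (h1 : S_MC1) (h5 : S_MC5) : S_THO := by
  intro r hr h2
  have key : ∀ n : ℕ, ∀ (G : Type) [Group G] [Finite G], Nat.card G = n → ∀ P : Subgroup G,
      IsPGroup r P → ¬ r ∣ P.index → PN r (normalizer ((JJ r P : Subgroup G) : Set G)) →
      PN r (centralizer ((ZS P : Subgroup G) : Set G)) → PN r (⊤ : Subgroup G) := by
    intro n
    induction n using Nat.strong_induction_on with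
    | _ n ih =>
      intro G _ _ hn P hP hi hJ hZ
      by_contra hbad
      have mc : MC r G P := by
        refine ⟨inferInstance, hr, h2, hP, hi, hJ, hZ, hbad, ?_⟩
        intro G' _ _ hlt P' a b c d
        exact ih (Nat.card G') (by omega) G' rfl P' a b c d
      obtain ⟨T, K, hTK⟩ := h1 G r P mc
      exact h5 G r P T K mc hTK
  intro G _ _ P a b c d
  exact key _ G rfl P a b c d

end Pool.Agent.Helper52.SGP.THO
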