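import Pool.Agent.Helper52.SG.Goals2
import Pool.Agent.Helper88.SG.FR1

set_option autoImplicit false

namespace Pool.Agent.Helper52.SG.ZP

open Subgroup Pool.H83Shunkov Pool.Agent.Helper29.SH Pool.Agent.Helper52.SG

theorem map_ZS {G : Type} [Group G] (P : Subgroup G) (G' : Type) [Group G'] (f : G →* G')
    (hf : ∀ x ∈ P, f x = 1 → x = 1) : ZS (P.map f) = (ZS P).map f := by
  ext y
  constructor
  · rintro ⟨⟨x, hx, rfl⟩, hy2⟩
    refine ⟨x, ⟨hx, ?_⟩, rfl⟩
    change x ∈ centralizer (P : Set G)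
    rw [Subgroup.mem_centralizer_iff]
    intro z hz
    have h1 := Subgroup.mem_centralizer_iff.1 hy2 (f z) ⟨z, hz, rfl⟩
    have h2 : f (z * x * (x * z)⁻¹) = 1 := by
      rw [map_mul, map_inv, map_mul, map_mul, h1, mul_inv_cancel]
    have h3 := hf _ (P.mul_mem (P.mul_mem hz hx) (P.inv_mem (P.mul_mem hx hz))) h2
    exact mul_inv_eq_one.1 h3
  · rintro ⟨x, ⟨hx1, hx2⟩, rfl⟩
    refine ⟨⟨x, hx1, rfl⟩, ?_⟩
    change f x ∈ centralizer (((P.map f : Subgroup G')) : Set G')
    rw [Subgroup.mem_centralizer_iff]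
    rintro _ ⟨z, hz, rfl⟩
    have h1 := Subgroup.mem_centralizer_iff.1 hx2 z hz
    rw [← map_mul, ← map_mul, h1]

theorem t : S_ZP := by
  intro G _ _ r hr P
  haveI : Fact r.Prime := ⟨hr⟩
  refine ⟨?_, fun G' _ f hf => map_ZS P G' f hf, ?_⟩
  · intro hP hne hZ
    haveI : Nontrivial P := (Subgroup.nontrivial_iff_ne_bot P).2 hne
    have h1 : Nontrivial (Subgroup.center P) := hP.center_nontrivial
    obtain ⟨z, hz⟩ := exists_ne (1 : Subgroup.center P)
    apply hz
    have h2 : ((z : P) : G) ∈ ZS P := by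
      refine ⟨(z : P).2, ?_⟩
      change ((z : P) : G) ∈ centralizer (P : Set G)
      rw [Subgroup.mem_centralizer_iff]
      intro y hy
      have h3 := Subgroup.mem_center_iff.1 z.2 ⟨y, hy⟩
      exact congrArg Subtype.val h3
    rw [hZ, Subgroup.mem_bot] at h2
    exact Subtype.ext (Subtype.ext h2)
  · intro g
    refine map_ZS P G (MulAut.conj g⁻¹).toMonoidHom ?_
    intro x _ hx
    exact (MulAut.conj g⁻¹).injective (hx.trans (map_one _).symm)

end Pool.Agent.Helper52.SG.ZP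

namespace Pool.Agent.Helper52.SG.NRQ

open Subgroup Pool.H83Shunkov Pool.Agent.Helper29.SH Pool.Agent.Helper52.SG
open Pool.Agent.Helper88.SG.FR1
open scoped Pointwise

/-- the conjugating element `e ∈ E` -/
theorem aux {G : Type} [Group G] [Finite G] (r : ℕ) (E U : Subgroup G) [E.Normal]
    (hr : r.Prime) (hE : ¬ r ∣ Nat.card E) (hU : IsPGroup r U) (g : G)
    (hg : (QuotientGroup.mk' E g) ∈
      normalizer ((U.map (QuotientGroup.mk' E) : Subgroup (G ⧸ E)) : Set (G ⧸ E))) :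
    ∃ e ∈ E, g * e⁻¹ ∈ normalizer (U : Set G) := by
  haveI : Fact r.Prime := ⟨hr⟩
  have hmk : ∀ x : G, QuotientGroup.mk' E x ∈ (U.map (QuotientGroup.mk' E)) ↔ x ∈ U ⊔ E := by
    intro x
    have h1 : x ∈ (U.map (QuotientGroup.mk' E)).comap (QuotientGroup.mk' E) ↔
        QuotientGroup.mk' E x ∈ (U.map (QuotientGroup.mk' E)) := Subgroup.mem_comap
    rw [← h1, Subgroup.comap_map_eq, QuotientGroup.ker_mk']
  have hW : cj (U ⊔ E) g = U ⊔ E := by
    ext x
    rw [mem_cj, ← hmk, ← hmk, map_mul, map_mul, map_inv]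
    exact (Subgroup.mem_normalizer_iff.1 hg _).symm
  have hcU : cj U g ≤ U ⊔ E := by
    rw [← hW]
    exact cj_mono le_sup_left g
  -- the indices
  have hcard : ∀ A B : Subgroup G, A ≤ B → Nat.card A * A.relIndex B = Nat.card B := by
    intro A B hAB
    have h1 := Subgroup.relIndex_mul_relIndex (⊥ : Subgroup G) A B bot_le hAB
    rwa [Subgroup.relIndex_bot_left, Subgroup.relIndex_bot_left] at h1
  have hidx : ∀ V : Subgroup G, Nat.card V = Nat.card U → (V ≤ U ⊔ E) →
      ¬ r ∣ (V.subgroupOf (U ⊔ E)).index := by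
    intro V hc hle h
    change r ∣ V.relIndex (U ⊔ E) at h
    have h1 := hcard V (U ⊔ E) hle
    have h2 := hcard E (U ⊔ E) le_sup_right
    rw [Subgroup.relIndex_sup_right] at h2
    obtain ⟨k, hk⟩ := Subgroup.relIndex_dvd_card E U
    rw [hc, ← h2, hk] at h1
    have hpos : 0 < E.relIndex U := by
      rcases Nat.eq_zero_or_pos (E.relIndex U) with h0 | h0
      · exfalso
        rw [h0, zero_mul] at hk
        exact (Nat.card_pos (α := U)).ne' hk
      · exact h0
    have h3 : E.relIndex U * (k * V.relIndex (U ⊔ E)) = E.relIndex U * Nat.card E := by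
      rw [← mul_assoc, h1, mul_comm]
    have h4 := Nat.eq_of_mul_eq_mul_left hpos h3
    exact hE (h4 ▸ (h.mul_left k))
  have hcU2 : Nat.card (cj U g : Subgroup G) = Nat.card U := by
    unfold cj
    exact Subgroup.card_map_of_injective (MulAut.conj g⁻¹).injective
  have hSU : IsPGroup r (U.subgroupOf (U ⊔ E)) :=
    hU.comap_of_injective _ (Subgroup.subtype_injective _)
  have hSV : IsPGroup r ((cj U g).subgroupOf (U ⊔ E)) :=
    (cj_isPGroup hU g).comap_of_injective _ (Subgroup.subtype_injective _)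
  obtain ⟨w, hw⟩ := syl_conj (hSV.toSylow (hidx _ hcU2 hcU)) (hSU.toSylow (hidx U rfl le_sup_left))
  have hw2 : cj (U.subgroupOf (U ⊔ E)) w = (cj U g).subgroupOf (U ⊔ E) := hw
  have hw3 := cj_map (U ⊔ E).subtype (U.subgroupOf (U ⊔ E)) w
  rw [hw2, Subgroup.map_subgroupOf_eq_of_le hcU, Subgroup.map_subgroupOf_eq_of_le le_sup_left] at hw3
  have hwm : (w : G) ∈ (U : Set G) * (E : Set G) := by
    rw [← Subgroup.mul_normal]
    exact w.2
  obtain ⟨u, hu, e, he, hue⟩ := Set.mem_mul.1 hwm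
  refine ⟨e, he, ?_⟩
  have h5 : cj U g = cj U e := by
    rw [hw3]
    change cj U (w : G) = cj U e
    rw [← hue, ← cj_mul, cj_eq_of_mem hu]
  have h6 : cj U (g * e⁻¹) = U := by
    rw [← cj_mul, h5, cj_inv_cancel]
  rw [Subgroup.mem_normalizer_iff]
  intro x
  rw [← mem_cj, h6]

theorem t : S_NRQ := by
  intro G _ _ r E U _ hr hE hU
  have hmk1 : ∀ e ∈ E, QuotientGroup.mk' E e = 1 := fun e he =>
    (QuotientGroup.eq_one_iff e).2 he
  constructor
  · intro y hy
    obtain ⟨g, rfl⟩ := QuotientGroup.mk'_surjective E y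
    obtain ⟨e, he, hn⟩ := aux r E U hr hE hU g hy
    refine ⟨g * e⁻¹, hn, ?_⟩
    rw [map_mul, map_inv, hmk1 e he, inv_one, mul_one]
  · intro y hy
    obtain ⟨g, rfl⟩ := QuotientGroup.mk'_surjective E y
    have hy2 := Subgroup.mem_centralizer_iff.1 hy
    have hyn : QuotientGroup.mk' E g ∈
        normalizer ((U.map (QuotientGroup.mk' E) : Subgroup (G ⧸ E)) : Set (G ⧸ E)) := by
      rw [Subgroup.mem_normalizer_iff]
      intro x
      constructor
      · intro hx
        have h1 := hy2 x hx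
        rw [← h1, mul_inv_cancel_right]
        exact hx
      · intro hx
        have h1 := hy2 _ hx
        have h2 : (QuotientGroup.mk' E g) * x * (QuotientGroup.mk' E g)⁻¹ = x := by
          have h3 : (QuotientGroup.mk' E g) * x =
              (QuotientGroup.mk' E g) * ((QuotientGroup.mk' E g) * x * (QuotientGroup.mk' E g)⁻¹) := by
            rw [← h1, inv_mul_cancel_right]
          exact (mul_left_cancel h3).symm
        rwa [h2] at hx
    obtain ⟨e, he, hn⟩ := aux r E U hr hE hU g hyn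
    have himg : QuotientGroup.mk' E (g * e⁻¹) = QuotientGroup.mk' E g := by
      rw [map_mul, map_inv, hmk1 e he, inv_one, mul_one]
    refine ⟨g * e⁻¹, ?_, himg⟩
    change g * e⁻¹ ∈ centralizer (U : Set G)
    rw [Subgroup.mem_centralizer_iff]
    intro u hu
    set n := g * e⁻¹ with hndef
    have h1 : n * u * n⁻¹ ∈ U := (Subgroup.mem_normalizer_iff.1 hn u).1 hu
    have h2 : n * u * n⁻¹ * u⁻¹ ∈ U := U.mul_mem h1 (U.inv_mem hu)
    have h3 : n * u * n⁻¹ * u⁻¹ ∈ E := by
      rw [← QuotientGroup.eq_one_iff]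
      change QuotientGroup.mk' E (n * u * n⁻¹ * u⁻¹) = 1
      rw [map_mul, map_mul, map_mul, map_inv, map_inv, himg,
        ← hy2 (QuotientGroup.mk' E u) ⟨u, hu, rfl⟩]
      group
    have h4 : n * u * n⁻¹ * u⁻¹ = 1 := by
      obtain ⟨j, hj⟩ := hU ⟨_, h2⟩
      have hj2 : (n * u * n⁻¹ * u⁻¹) ^ r ^ j = 1 := congrArg Subtype.val hj
      have hd1 : orderOf (n * u * n⁻¹ * u⁻¹) ∣ r ^ j := orderOf_dvd_of_pow_eq_one hj2
      have hd2 : orderOf (n * u * n⁻¹ * u⁻¹) ∣ Nat.card E := by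
        have := orderOf_dvd_natCard (⟨_, h3⟩ : E)
        rwa [Subgroup.orderOf_mk] at this
      have hco : Nat.Coprime (r ^ j) (Nat.card E) :=
        Nat.Coprime.pow_left j ((Nat.Prime.coprime_iff_not_dvd hr).2 hE)
      exact orderOf_eq_one_iff.1 (Nat.eq_one_of_dvd_coprimes hco hd1 hd2)
    have h5 : n * u = u * n := by
      have h6 : n * u * n⁻¹ = u := mul_inv_eq_one.1 h4
      exact mul_inv_eq_iff_eq_mul.1 h6
    exact h5.symm

end Pool.Agent.Helper52.SG.NRQ
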